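import Mathlib

set_option autoImplicit false

namespace Pool.Agent.H739R3.Disc

open Finset

lemma rowc_bound (n : ℕ) (hn : 0 < n) (a b : ℝ) (ha : 0 ≤ a) (hab : a ≤ b) (hb : b ≤ 1) :
    |(∑ i : Fin n, (if a ≤ (i : ℝ) / n ∧ (i : ℝ) / n < b then (1 : ℝ) else 0)) - n * (b - a)|
      ≤ 1 := by
  classical
  have hn' : (0 : ℝ) < n := by exact_mod_cast hn
  rw [Finset.sum_boole]
  have himg : (univ.filter (fun i : Fin n => a ≤ (i : ℝ) / n ∧ (i : ℝ) / n < b)).image
      (Fin.val) = Finset.Ico ⌈(n : ℝ) * a⌉₊ ⌈(n : ℝ) * b⌉₊ := by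
    ext k
    simp only [mem_image, mem_filter, mem_univ, true_and, mem_Ico, Nat.ceil_le, Nat.lt_ceil]
    constructor
    · rintro ⟨i, ⟨h1, h2⟩, rfl⟩
      constructor
      · rw [le_div_iff₀ hn'] at h1; linarith
      · rw [div_lt_iff₀ hn'] at h2; linarith
    · rintro ⟨h1, h2⟩
      have hk : k < n := by
        have : (k : ℝ) < n := by nlinarith
        exact_mod_cast this
      refine ⟨⟨k, hk⟩, ⟨?_, ?_⟩, rfl⟩
      · rw [le_div_iff₀ hn']; simp only; linarith
      · rw [div_lt_iff₀ hn']; simp only; linarith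
  have hcard : (univ.filter (fun i : Fin n => a ≤ (i : ℝ) / n ∧ (i : ℝ) / n < b)).card
      = ⌈(n : ℝ) * b⌉₊ - ⌈(n : ℝ) * a⌉₊ := by
    rw [← Nat.card_Ico, ← himg, Finset.card_image_of_injective _ Fin.val_injective]
  rw [hcard]
  have hle : ⌈(n : ℝ) * a⌉₊ ≤ ⌈(n : ℝ) * b⌉₊ := by
    apply Nat.ceil_mono
    exact mul_le_mul_of_nonneg_left hab hn'.le
  rw [Nat.cast_sub hle]
  have ha0 : 0 ≤ (n : ℝ) * a := by positivity
  have hb0 : 0 ≤ (n : ℝ) * b := mul_nonneg hn'.le (ha.trans hab)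
  have h1 := Nat.le_ceil ((n : ℝ) * a)
  have h2 := Nat.ceil_lt_add_one ha0
  have h3 := Nat.le_ceil ((n : ℝ) * b)
  have h4 := Nat.ceil_lt_add_one hb0
  rw [abs_le]
  constructor <;> nlinarith

lemma rowc_nonneg (n : ℕ) (a b : ℝ) :
    0 ≤ (∑ i : Fin n, (if a ≤ (i : ℝ) / n ∧ (i : ℝ) / n < b then (1 : ℝ) else 0)) := by
  apply Finset.sum_nonneg
  intro i _
  split_ifs <;> norm_num

lemma sum_ite_le (n : ℕ) (Q : Fin n → Prop) [DecidablePred Q] :
    (∑ i : Fin n, (if Q i then (1 : ℝ) else 0)) ≤ n := by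
  calc (∑ i : Fin n, (if Q i then (1 : ℝ) else 0)) ≤ ∑ i : Fin n, (1 : ℝ) := by
        apply Finset.sum_le_sum
        intro i _
        split_ifs <;> norm_num
    _ = n := by simp

lemma sum_ite_nonneg (n : ℕ) (Q : Fin n → Prop) [DecidablePred Q] :
    0 ≤ (∑ i : Fin n, (if Q i then (1 : ℝ) else 0)) := by
  apply Finset.sum_nonneg
  intro i _
  split_ifs <;> norm_num

/-- first coordinates of the points in row `j`: the grid `i/n` in the ordinary rows, the
compressed grid `i/(2n)` in the last `h` rows. -/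
noncomputable def X (n h : ℕ) (i j : Fin n) : ℝ :=
  if (j : ℕ) + h < n then (i : ℝ) / n else (i : ℝ) / (2 * n)

/-- second coordinate of row `j`. -/
noncomputable def Y (n : ℕ) (j : Fin n) : ℝ := (j : ℝ) / n

lemma strip_count (n h : ℕ) :
    (∑ j : Fin n, (if (j : ℕ) + h < n then (0 : ℝ) else 1)) ≤ h := by
  classical
  rw [Fin.sum_univ_eq_sum_range (fun j => if j + h < n then (0 : ℝ) else 1) n]
  have : ∀ j ∈ range n, (if j + h < n then (0 : ℝ) else 1) = if j + h < n then (0 : ℝ) else 1 :=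
    fun _ _ => rfl
  calc (∑ j ∈ range n, (if j + h < n then (0 : ℝ) else 1))
      = ∑ j ∈ range n, (if ¬ (j + h < n) then (1 : ℝ) else 0) := by
        apply Finset.sum_congr rfl
        intro j _
        by_cases hj : j + h < n <;> simp [hj]
    _ = (((range n).filter (fun j => ¬ (j + h < n))).card : ℝ) := by rw [Finset.sum_boole]
    _ ≤ h := by
        have : ((range n).filter (fun j => ¬ (j + h < n))) ⊆ Finset.Ico (n - h) n := by
          intro j hj
          simp only [mem_filter, mem_range, mem_Ico] at hj ⊢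
          omega
        have h2 := Finset.card_le_card this
        rw [Nat.card_Ico] at h2
        have h3 : ((range n).filter (fun j => ¬ (j + h < n))).card ≤ h := by omega
        exact_mod_cast h3

/-- Extreme (unanchored) boxes. -/
lemma count_extreme (n h : ℕ) (hn : 0 < n) (hh : h ≤ n) (u1 v1 u2 v2 : ℝ) (hu1 : 0 ≤ u1)
    (huv1 : u1 ≤ v1) (hv1 : v1 ≤ 1) (hu2 : 0 ≤ u2) (huv2 : u2 ≤ v2) (hv2 : v2 ≤ 1) :
    |(∑ j : Fin n, ∑ i : Fin n,
        (if (u1 ≤ X n h i j ∧ X n h i j < v1) ∧ (u2 ≤ Y n j ∧ Y n j < v2) then (1 : ℝ) else 0))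
      - n * n * ((v1 - u1) * (v2 - u2))| ≤ 2 * n + (if 1 - (h : ℝ) / n < v2 then (h : ℝ) * n else 0)
      := by
  classical
  have hn' : (0 : ℝ) < n := by exact_mod_cast hn
  set r : ℝ := ∑ i : Fin n, (if u1 ≤ (i : ℝ) / n ∧ (i : ℝ) / n < v1 then (1 : ℝ) else 0) with hr
  set R : ℝ := ∑ j : Fin n, (if u2 ≤ (j : ℝ) / n ∧ (j : ℝ) / n < v2 then (1 : ℝ) else 0) with hR
  have hrb := rowc_bound n hn u1 v1 hu1 huv1 hv1
  have hRb := rowc_bound n hn u2 v2 hu2 huv2 hv2
  rw [← hr] at hrb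
  rw [← hR] at hRb
  have hr0 : 0 ≤ r := sum_ite_nonneg n _
  have hrn : r ≤ n := sum_ite_le n _
  have hmain : |(∑ j : Fin n, ∑ i : Fin n,
        (if (u1 ≤ X n h i j ∧ X n h i j < v1) ∧ (u2 ≤ Y n j ∧ Y n j < v2) then (1 : ℝ) else 0))
        - R * r| ≤ (if 1 - (h : ℝ) / n < v2 then (h : ℝ) * n else 0) := by
    rw [hR, Finset.sum_mul, ← Finset.sum_sub_distrib]
    have hterm : ∀ j : Fin n,
        |(∑ i : Fin n, (if (u1 ≤ X n h i j ∧ X n h i j < v1) ∧ (u2 ≤ Y n j ∧ Y n j < v2)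
            then (1 : ℝ) else 0))
          - (if u2 ≤ (j : ℝ) / n ∧ (j : ℝ) / n < v2 then (1 : ℝ) else 0) * r|
        ≤ (if (j : ℕ) + h < n then (0 : ℝ) else 1) *
            (if 1 - (h : ℝ) / n < v2 then (n : ℝ) else 0) := by
      intro j
      by_cases hc : u2 ≤ (j : ℝ) / n ∧ (j : ℝ) / n < v2
      · have hc' : (u2 ≤ Y n j ∧ Y n j < v2) := hc
        simp only [hc', hc, and_true, and_self, if_true, one_mul]
        by_cases hj : (j : ℕ) + h < n
        · have hX : ∀ i : Fin n, X n h i j = (i : ℝ) / n := by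
            intro i; unfold X; rw [if_pos hj]
          simp only [hX]
          rw [← hr]
          simp [hj]
        · have hv : 1 - (h : ℝ) / n < v2 := by
            have h1 : (n : ℝ) ≤ (j : ℝ) + h := by
              have : n ≤ (j : ℕ) + h := by omega
              exact_mod_cast this
            have h2 : 1 - (h : ℝ) / n ≤ (j : ℝ) / n := by
              rw [sub_le_iff_le_add, ← add_div, le_div_iff₀ hn', one_mul]
              exact h1
            exact lt_of_le_of_lt h2 hc.2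
          rw [if_neg hj, if_pos hv, one_mul]
          have hs0 := sum_ite_nonneg n (fun i : Fin n => u1 ≤ X n h i j ∧ X n h i j < v1)
          have hs1 := sum_ite_le n (fun i : Fin n => u1 ≤ X n h i j ∧ X n h i j < v1)
          rw [abs_le]
          constructor <;> linarith
      · have hc' : ¬ (u2 ≤ Y n j ∧ Y n j < v2) := hc
        simp only [hc', hc, and_false, if_false, Finset.sum_const_zero, zero_mul, sub_zero,
          abs_zero]
        apply mul_nonneg <;> split_ifs <;> norm_num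
    calc |∑ j : Fin n, ((∑ i : Fin n, (if (u1 ≤ X n h i j ∧ X n h i j < v1) ∧
              (u2 ≤ Y n j ∧ Y n j < v2) then (1 : ℝ) else 0))
          - (if u2 ≤ (j : ℝ) / n ∧ (j : ℝ) / n < v2 then (1 : ℝ) else 0) * r)|
        ≤ ∑ j : Fin n, |(∑ i : Fin n, (if (u1 ≤ X n h i j ∧ X n h i j < v1) ∧
              (u2 ≤ Y n j ∧ Y n j < v2) then (1 : ℝ) else 0))
          - (if u2 ≤ (j : ℝ) / n ∧ (j : ℝ) / n < v2 then (1 : ℝ) else 0) * r| :=
          Finset.abs_sum_le_sum_abs _ _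
      _ ≤ ∑ j : Fin n, (if (j : ℕ) + h < n then (0 : ℝ) else 1) *
            (if 1 - (h : ℝ) / n < v2 then (n : ℝ) else 0) :=
          Finset.sum_le_sum (fun j _ => hterm j)
      _ = (∑ j : Fin n, (if (j : ℕ) + h < n then (0 : ℝ) else 1)) *
            (if 1 - (h : ℝ) / n < v2 then (n : ℝ) else 0) := by rw [Finset.sum_mul]
      _ ≤ h * (if 1 - (h : ℝ) / n < v2 then (n : ℝ) else 0) := by
          apply mul_le_mul_of_nonneg_right (strip_count n h)
          split_ifs <;> positivity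
      _ = (if 1 - (h : ℝ) / n < v2 then (h : ℝ) * n else 0) := by
          split_ifs <;> simp
  have h2 : |R * r - n * n * ((v1 - u1) * (v2 - u2))| ≤ 2 * n := by
    have e : R * r - n * n * ((v1 - u1) * (v2 - u2))
        = (R - n * (v2 - u2)) * r + (n * (v2 - u2)) * (r - n * (v1 - u1)) := by ring
    rw [e]
    have hB0 : 0 ≤ (n : ℝ) * (v2 - u2) := mul_nonneg hn'.le (by linarith)
    have hB1 : (n : ℝ) * (v2 - u2) ≤ n := by nlinarith
    calc |(R - n * (v2 - u2)) * r + (n * (v2 - u2)) * (r - n * (v1 - u1))|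
        ≤ |(R - n * (v2 - u2)) * r| + |(n * (v2 - u2)) * (r - n * (v1 - u1))| := abs_add_le _ _
      _ = |R - n * (v2 - u2)| * r + (n * (v2 - u2)) * |r - n * (v1 - u1)| := by
          rw [abs_mul, abs_mul, abs_of_nonneg hr0, abs_of_nonneg hB0]
      _ ≤ 1 * n + n * 1 := by
          apply add_le_add
          · exact mul_le_mul hRb hrn hr0 (by norm_num)
          · exact mul_le_mul hB1 hrb (abs_nonneg _) hn'.le
      _ = 2 * n := by ring
  set S := (∑ j : Fin n, ∑ i : Fin n,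
        (if (u1 ≤ X n h i j ∧ X n h i j < v1) ∧ (u2 ≤ Y n j ∧ Y n j < v2) then (1 : ℝ) else 0))
  calc |S - n * n * ((v1 - u1) * (v2 - u2))|
      = |(S - R * r) + (R * r - n * n * ((v1 - u1) * (v2 - u2)))| := by ring_nf
    _ ≤ |S - R * r| + |R * r - n * n * ((v1 - u1) * (v2 - u2))| := abs_add_le _ _
    _ ≤ (if 1 - (h : ℝ) / n < v2 then (h : ℝ) * n else 0) + 2 * n := add_le_add hmain h2
    _ = _ := by ring

/-- Wrapping boxes see the strip. -/
lemma count_periodic (n h : ℕ) (hn : 0 < n) (x1 y1 x2 y2 : ℝ) (hx1 : 1 / 2 ≤ x1)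
    (hxy1 : x1 ≤ y1) (hy1 : y1 ≤ 1) (hy2 : 0 ≤ y2) (hy2' : y2 ≤ 1) (hx2 : 0 ≤ x2)
    (hx2' : x2 ≤ 1 - (h : ℝ) / n) :
    (∑ j : Fin n, ∑ i : Fin n,
        (if (x1 ≤ X n h i j ∧ X n h i j < y1) ∧ (Y n j < y2 ∨ x2 ≤ Y n j) then (1 : ℝ) else 0))
      ≤ (n * (1 - x2 + y2) - h + 2) * (n * (y1 - x1) + 1) := by
  classical
  have hn' : (0 : ℝ) < n := by exact_mod_cast hn
  set r : ℝ := ∑ i : Fin n, (if x1 ≤ (i : ℝ) / n ∧ (i : ℝ) / n < y1 then (1 : ℝ) else 0) with hr
  have hrb := rowc_bound n hn x1 y1 (by linarith) hxy1 hy1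
  rw [← hr] at hrb
  have hr0 : 0 ≤ r := sum_ite_nonneg n _
  have hh0 : (0 : ℝ) ≤ (h : ℝ) / n := by positivity
  have hR1 := rowc_bound n hn 0 y2 le_rfl hy2 hy2'
  have hR2 := rowc_bound n hn x2 (1 - (h : ℝ) / n) hx2 hx2' (by linarith)
  set R1 : ℝ := ∑ j : Fin n, (if 0 ≤ (j : ℝ) / n ∧ (j : ℝ) / n < y2 then (1 : ℝ) else 0) with hR1d
  set R2 : ℝ := ∑ j : Fin n, (if x2 ≤ (j : ℝ) / n ∧ (j : ℝ) / n < 1 - (h : ℝ) / n
    then (1 : ℝ) else 0) with hR2d
  have hterm : ∀ j : Fin n,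
      (∑ i : Fin n, (if (x1 ≤ X n h i j ∧ X n h i j < y1) ∧ (Y n j < y2 ∨ x2 ≤ Y n j)
            then (1 : ℝ) else 0))
      ≤ ((if 0 ≤ (j : ℝ) / n ∧ (j : ℝ) / n < y2 then (1 : ℝ) else 0) +
          (if x2 ≤ (j : ℝ) / n ∧ (j : ℝ) / n < 1 - (h : ℝ) / n then (1 : ℝ) else 0)) * r := by
    intro j
    have hnonneg : 0 ≤ ((if 0 ≤ (j : ℝ) / n ∧ (j : ℝ) / n < y2 then (1 : ℝ) else 0) +
          (if x2 ≤ (j : ℝ) / n ∧ (j : ℝ) / n < 1 - (h : ℝ) / n then (1 : ℝ) else 0)) * r := by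
      apply mul_nonneg _ hr0
      apply add_nonneg <;> split_ifs <;> norm_num
    by_cases hj : (j : ℕ) + h < n
    · have hX : ∀ i : Fin n, X n h i j = (i : ℝ) / n := by
        intro i; unfold X; rw [if_pos hj]
      simp only [hX]
      have hY0 : 0 ≤ (j : ℝ) / n := by positivity
      have hY1 : (j : ℝ) / n < 1 - (h : ℝ) / n := by
        have : (j : ℝ) + h < n := by exact_mod_cast hj
        rw [lt_sub_iff_add_lt, ← add_div, div_lt_one hn']
        exact this
      by_cases hc : (Y n j < y2 ∨ x2 ≤ Y n j)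
      · simp only [hc, and_true]
        rw [← hr]
        have : (1 : ℝ) ≤ ((if 0 ≤ (j : ℝ) / n ∧ (j : ℝ) / n < y2 then (1 : ℝ) else 0) +
          (if x2 ≤ (j : ℝ) / n ∧ (j : ℝ) / n < 1 - (h : ℝ) / n then (1 : ℝ) else 0)) := by
          rcases hc with hc | hc
          · have hc' : (0 ≤ (j : ℝ) / n ∧ (j : ℝ) / n < y2) := ⟨hY0, hc⟩
            rw [if_pos hc']
            have : (0 : ℝ) ≤ (if x2 ≤ (j : ℝ) / n ∧ (j : ℝ) / n < 1 - (h : ℝ) / n
              then (1 : ℝ) else 0) := by split_ifs <;> norm_num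
            linarith
          · have hc' : (x2 ≤ (j : ℝ) / n ∧ (j : ℝ) / n < 1 - (h : ℝ) / n) := ⟨hc, hY1⟩
            rw [if_pos hc']
            have : (0 : ℝ) ≤ (if 0 ≤ (j : ℝ) / n ∧ (j : ℝ) / n < y2
              then (1 : ℝ) else 0) := by split_ifs <;> norm_num
            linarith
        calc r = 1 * r := (one_mul r).symm
          _ ≤ _ := mul_le_mul_of_nonneg_right this hr0
      · simp only [hc, and_false, if_false, Finset.sum_const_zero]
        exact hnonneg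
    · have hX : ∀ i : Fin n, ¬ (x1 ≤ X n h i j) := by
        intro i; unfold X; rw [if_neg hj]
        push Not
        have hi : (i : ℝ) < n := by exact_mod_cast i.2
        have : (i : ℝ) / (2 * n) < 1 / 2 := by
          rw [div_lt_div_iff₀ (by positivity) (by norm_num)]
          linarith
        linarith
      simp only [hX, false_and, if_false, Finset.sum_const_zero]
      exact hnonneg
  calc (∑ j : Fin n, ∑ i : Fin n,
        (if (x1 ≤ X n h i j ∧ X n h i j < y1) ∧ (Y n j < y2 ∨ x2 ≤ Y n j) then (1 : ℝ) else 0))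
      ≤ ∑ j : Fin n, ((if 0 ≤ (j : ℝ) / n ∧ (j : ℝ) / n < y2 then (1 : ℝ) else 0) +
          (if x2 ≤ (j : ℝ) / n ∧ (j : ℝ) / n < 1 - (h : ℝ) / n then (1 : ℝ) else 0)) * r :=
        Finset.sum_le_sum (fun j _ => hterm j)
    _ = (R1 + R2) * r := by rw [← Finset.sum_mul, Finset.sum_add_distrib]
    _ ≤ (n * (1 - x2 + y2) - h + 2) * (n * (y1 - x1) + 1) := by
        rw [abs_le] at hrb hR1 hR2
        have hR1n : 0 ≤ R1 := sum_ite_nonneg n _
        have hR2n : 0 ≤ R2 := sum_ite_nonneg n _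
        have e : (n : ℝ) * (1 - (h : ℝ) / n - x2) = n * (1 - x2) - h := by
          field_simp
          ring
        have hA : R1 + R2 ≤ n * (1 - x2 + y2) - h + 2 := by
          have h1 := hR1.2
          have h2 := hR2.2
          rw [e] at h2
          linarith
        apply mul_le_mul hA (by linarith [hrb.2]) hr0
        linarith

end Pool.Agent.H739R3.Disc
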