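import Mathlib
import Pool.Agent.H739R3.DiscGrid

set_option autoImplicit false

namespace Pool.Agent.H739R3.Disc

open Finset MeasureTheory

/-- Lower bound of a double integral by its restriction to a product set. -/
lemma per_lower (F : (Fin 2 → ℝ) → (Fin 2 → ℝ) → ℝ) (hF : Measurable (Function.uncurry F))
    (M c : ℝ) (h0 : ∀ x y, 0 ≤ F x y)
    (hM : ∀ x ∈ Set.Icc (0 : Fin 2 → ℝ) 1, ∀ y ∈ Set.Icc (0 : Fin 2 → ℝ) 1, F x y ≤ M)
    (Rx Ry : Set (Fin 2 → ℝ)) (hRx : Rx ⊆ Set.Icc (0 : Fin 2 → ℝ) 1)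
    (hRy : Ry ⊆ Set.Icc (0 : Fin 2 → ℝ) 1) (mRx : MeasurableSet Rx) (mRy : MeasurableSet Ry)
    (hlow : ∀ x ∈ Rx, ∀ y ∈ Ry, c ≤ F x y) :
    c * (volume : Measure (Fin 2 → ℝ)).real Ry * (volume : Measure (Fin 2 → ℝ)).real Rx
      ≤ ∫ x in Set.Icc (0 : Fin 2 → ℝ) 1, ∫ y in Set.Icc (0 : Fin 2 → ℝ) 1, F x y := by
  set I := Set.Icc (0 : Fin 2 → ℝ) 1 with hI
  have mI : MeasurableSet I := measurableSet_Icc
  have finI : volume I < ⊤ := isCompact_Icc.measure_lt_top
  have : IsFiniteMeasure ((volume : Measure (Fin 2 → ℝ)).restrict I) := ⟨by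
    rw [Measure.restrict_apply_univ]; exact finI⟩
  have hint : Integrable (Function.uncurry F)
      (((volume : Measure (Fin 2 → ℝ)).restrict I).prod
        ((volume : Measure (Fin 2 → ℝ)).restrict I)) := by
    apply Integrable.of_bound hF.aestronglyMeasurable M
    rw [Measure.prod_restrict]
    filter_upwards [ae_restrict_mem (mI.prod mI)] with z hz
    rw [Real.norm_eq_abs]
    change |F z.1 z.2| ≤ M
    rw [abs_of_nonneg (h0 _ _)]
    exact hM _ hz.1 _ hz.2
  have hG := hint.integral_prod_left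
  have hFx : ∀ x, Measurable (F x) := fun x =>
    hF.comp (measurable_const.prodMk measurable_id)
  have hintx : ∀ x ∈ I, IntegrableOn (F x) I volume := by
    intro x hx
    apply Integrable.of_bound (hFx x).aestronglyMeasurable M
    filter_upwards [ae_restrict_mem mI] with y hy
    rw [Real.norm_eq_abs, abs_of_nonneg (h0 _ _)]
    exact hM _ hx _ hy
  have inner : ∀ x ∈ Rx, c * (volume : Measure (Fin 2 → ℝ)).real Ry ≤ ∫ y in I, F x y := by
    intro x hx
    have h1 : c * (volume : Measure (Fin 2 → ℝ)).real Ry ≤ ∫ y in Ry, F x y := by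
      apply setIntegral_ge_of_const_le_real mRy
      · exact ne_of_lt (lt_of_le_of_lt (measure_mono hRy) finI)
      · exact fun y hy => hlow x hx y hy
      · exact (hintx x (hRx hx)).mono_set hRy
    refine h1.trans (setIntegral_mono_set (hintx x (hRx hx)) ?_ ?_)
    · exact Filter.Eventually.of_forall (fun y => h0 x y)
    · exact Filter.Eventually.of_forall hRy
  have hGI : IntegrableOn (fun x => ∫ y in I, F x y) I volume := hG
  have outer : c * (volume : Measure (Fin 2 → ℝ)).real Ry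
      * (volume : Measure (Fin 2 → ℝ)).real Rx ≤ ∫ x in Rx, ∫ y in I, F x y := by
    apply setIntegral_ge_of_const_le_real mRx
    · exact ne_of_lt (lt_of_le_of_lt (measure_mono hRx) finI)
    · exact inner
    · exact hGI.mono_set hRx
  refine outer.trans (setIntegral_mono_set hGI ?_ ?_)
  · exact Filter.Eventually.of_forall (fun x => integral_nonneg (fun y => h0 x y))
  · exact Filter.Eventually.of_forall hRx

/-- Upper bound of an integral whose integrand is `≤ 2n` off a thin strip and `≤ 2n + hn` on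
it. -/
lemma int_upper (n h : ℕ) (hn : 0 < n) (hh : h ≤ n) (F : (Fin 2 → ℝ) → ℝ)
    (h0 : ∀ t ∈ Set.Icc (0 : Fin 2 → ℝ) 1, 0 ≤ F t)
    (hF : ∀ t ∈ Set.Icc (0 : Fin 2 → ℝ) 1,
      F t ≤ 2 * n + (if 1 - (h : ℝ) / n < t 1 then (h : ℝ) * n else 0)) :
    ∫ t in Set.Icc (0 : Fin 2 → ℝ) 1, F t ≤ 2 * n + h * h := by
  have hn' : (0 : ℝ) < n := by exact_mod_cast hn
  set I := Set.Icc (0 : Fin 2 → ℝ) 1 with hI
  have mI : MeasurableSet I := measurableSet_Icc
  have finI : volume I < ⊤ := isCompact_Icc.measure_lt_top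
  have : IsFiniteMeasure ((volume : Measure (Fin 2 → ℝ)).restrict I) := ⟨by
    rw [Measure.restrict_apply_univ]; exact finI⟩
  set S : Set (Fin 2 → ℝ) := Set.Icc ![0, 1 - (h : ℝ) / n] ![1, 1] with hS
  have mS : MeasurableSet S := measurableSet_Icc
  have hhn : (h : ℝ) / n ≤ 1 := by
    rw [div_le_one hn']; exact_mod_cast hh
  have hhn0 : (0 : ℝ) ≤ (h : ℝ) / n := by positivity
  have volS : (volume : Measure (Fin 2 → ℝ)).real S = (h : ℝ) / n := by
    rw [hS, measureReal_def, Real.volume_Icc_pi_toReal]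
    · simp
    · intro i
      fin_cases i
      · simp
      · simp [hhn0]
  have volI : (volume : Measure (Fin 2 → ℝ)).real I = 1 := by
    rw [hI, measureReal_def, Real.volume_Icc_pi_toReal]
    · simp
    · exact zero_le_one
  have step : ∫ t in I, F t ≤ ∫ t in I, ((2 * n : ℝ) + S.indicator (fun _ => (h : ℝ) * n) t) := by
    apply integral_mono_of_nonneg
    · filter_upwards [ae_restrict_mem mI] with t ht using h0 t ht
    · apply Integrable.add (integrable_const _)
      exact (integrable_const _).indicator mS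
    · filter_upwards [ae_restrict_mem mI] with t ht
      refine (hF t ht).trans ?_
      apply add_le_add le_rfl
      by_cases hc : 1 - (h : ℝ) / n < t 1
      · rw [if_pos hc]
        have : t ∈ S := by
          rw [hS, Set.mem_Icc]
          constructor
          · intro i
            fin_cases i
            · simpa using ht.1 0
            · simpa using hc.le
          · intro i
            fin_cases i
            · simpa using ht.2 0
            · simpa using ht.2 1
        rw [Set.indicator_of_mem this]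
      · rw [if_neg hc]
        apply Set.indicator_nonneg
        intro _ _
        positivity
  refine step.trans ?_
  rw [integral_add (integrable_const _) ((integrable_const _).indicator mS)]
  rw [integral_indicator_const _ mS]
  rw [integral_const]
  have e1 : (volume.restrict I : Measure (Fin 2 → ℝ)).real Set.univ = 1 := by
    rw [measureReal_def, Measure.restrict_apply_univ, ← measureReal_def, volI]
  have e2 : (volume.restrict I : Measure (Fin 2 → ℝ)).real S ≤ (h : ℝ) / n := by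
    rw [← volS, measureReal_def, measureReal_def]
    apply ENNReal.toReal_mono
    · exact ne_of_lt (isCompact_Icc.measure_lt_top)
    · exact Measure.restrict_le_self S
  rw [e1]
  simp only [smul_eq_mul, one_mul]
  have e3 : (volume.restrict I : Measure (Fin 2 → ℝ)).real S * ((h : ℝ) * n)
      ≤ (h : ℝ) / n * ((h : ℝ) * n) := by
    apply mul_le_mul_of_nonneg_right e2
    positivity
  have e4 : (h : ℝ) / n * ((h : ℝ) * n) = h * h := by
    field_simp
  linarith

/-- The points. -/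
noncomputable def pt (n h : ℕ) (k : Fin (n * n)) : Fin 2 → ℝ :=
  ![X n h (finProdFinEquiv.symm k).1 (finProdFinEquiv.symm k).2, Y n (finProdFinEquiv.symm k).2]

lemma pt_mem (n h : ℕ) (k : Fin (n * n)) (j : Fin 2) : 0 ≤ pt n h k j ∧ pt n h k j < 1 := by
  have hn : 0 < n := by
    rcases Nat.eq_zero_or_pos n with h0 | h0
    · subst h0; exact absurd k.2 (by simp)
    · exact h0
  have hn' : (0 : ℝ) < n := by exact_mod_cast hn
  have hlt : ∀ i : Fin n, (i : ℝ) < n := fun i => by exact_mod_cast i.2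
  unfold pt
  fin_cases j
  · simp only [Fin.zero_eta, Fin.isValue, Matrix.cons_val_zero]
    unfold X
    split_ifs
    · exact ⟨div_nonneg (Nat.cast_nonneg _) hn'.le, (div_lt_one hn').2 (hlt _)⟩
    · refine ⟨div_nonneg (Nat.cast_nonneg _) (by positivity), (div_lt_one (by positivity)).2 ?_⟩
      have := hlt (finProdFinEquiv.symm k).1
      linarith
  · simp only [Fin.mk_one, Fin.isValue, Matrix.cons_val_one]
    unfold Y
    exact ⟨div_nonneg (Nat.cast_nonneg _) hn'.le, (div_lt_one hn').2 (hlt _)⟩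

lemma sum_pt (n h : ℕ) (Q : (Fin 2 → ℝ) → ℝ) :
    (∑ k : Fin (n * n), Q (pt n h k)) = ∑ j : Fin n, ∑ i : Fin n, Q ![X n h i j, Y n j] := by
  rw [← Equiv.sum_comp finProdFinEquiv, Fintype.sum_prod_type_right]
  apply Finset.sum_congr rfl
  intro j _
  apply Finset.sum_congr rfl
  intro i _
  unfold pt
  rw [Equiv.symm_apply_apply]

/-- The canonical periodic integrand (exponent one). -/
noncomputable def perInt {N : ℕ} (P : Fin N → Fin 2 → ℝ) (x y : Fin 2 → ℝ) : ℝ :=
  |(∑ k : Fin N, (if (∀ j : Fin 2, (x j ≤ y j ∧ x j ≤ P k j ∧ P k j < y j) ∨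
        (y j < x j ∧ (P k j < y j ∨ x j ≤ P k j))) then (1 : ℝ) else 0))
    - (N : ℝ) * ∏ j : Fin 2, (if x j ≤ y j then y j - x j else 1 - x j + y j)|

lemma meas_perInt {N : ℕ} (P : Fin N → Fin 2 → ℝ) :
    Measurable (Function.uncurry (perInt P)) := by
  have m1 : ∀ j : Fin 2, Measurable (fun z : (Fin 2 → ℝ) × (Fin 2 → ℝ) => z.1 j) :=
    fun j => (measurable_pi_apply j).comp measurable_fst
  have m2 : ∀ j : Fin 2, Measurable (fun z : (Fin 2 → ℝ) × (Fin 2 → ℝ) => z.2 j) :=
    fun j => (measurable_pi_apply j).comp measurable_snd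
  have hfun : Function.uncurry (perInt P) = fun z : (Fin 2 → ℝ) × (Fin 2 → ℝ) =>
      |(∑ k : Fin N, (if (∀ j : Fin 2, (z.1 j ≤ z.2 j ∧ z.1 j ≤ P k j ∧ P k j < z.2 j) ∨
        (z.2 j < z.1 j ∧ (P k j < z.2 j ∨ z.1 j ≤ P k j))) then (1 : ℝ) else 0))
    - (N : ℝ) * ∏ j : Fin 2, (if z.1 j ≤ z.2 j then z.2 j - z.1 j else 1 - z.1 j + z.2 j)| := by
    ext z; rfl
  rw [hfun]
  apply Measurable.abs
  apply Measurable.sub
  · apply Finset.measurable_fun_sum
    intro k _
    apply Measurable.ite _ measurable_const measurable_const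
    have : {z : (Fin 2 → ℝ) × (Fin 2 → ℝ) |
        ∀ j : Fin 2, (z.1 j ≤ z.2 j ∧ z.1 j ≤ P k j ∧ P k j < z.2 j) ∨
          (z.2 j < z.1 j ∧ (P k j < z.2 j ∨ z.1 j ≤ P k j))}
        = ⋂ j : Fin 2, (({z | z.1 j ≤ z.2 j} ∩ ({z | z.1 j ≤ P k j} ∩ {z | P k j < z.2 j})) ∪
          ({z | z.2 j < z.1 j} ∩ ({z | P k j < z.2 j} ∪ {z | z.1 j ≤ P k j}))) := by
      ext z
      simp only [Set.mem_ofPred_eq, Set.mem_iInter, Set.mem_union, Set.mem_inter_iff]
    rw [this]
    apply MeasurableSet.iInter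
    intro j
    have a1 : MeasurableSet {z : (Fin 2 → ℝ) × (Fin 2 → ℝ) | z.1 j ≤ z.2 j} :=
      measurableSet_le (m1 j) (m2 j)
    have a2 : MeasurableSet {z : (Fin 2 → ℝ) × (Fin 2 → ℝ) | z.1 j ≤ P k j} :=
      measurableSet_le (m1 j) measurable_const
    have a3 : MeasurableSet {z : (Fin 2 → ℝ) × (Fin 2 → ℝ) | P k j < z.2 j} :=
      measurableSet_lt measurable_const (m2 j)
    have a4 : MeasurableSet {z : (Fin 2 → ℝ) × (Fin 2 → ℝ) | z.2 j < z.1 j} :=
      measurableSet_lt (m2 j) (m1 j)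
    exact (a1.inter (a2.inter a3)).union (a4.inter (a3.union a2))
  · apply Measurable.const_mul
    apply Finset.measurable_fun_prod
    intro j _
    apply Measurable.ite (measurableSet_le (m1 j) (m2 j))
    · exact (m2 j).sub (m1 j)
    · exact (measurable_const.sub (m1 j)).add (m2 j)

lemma perInt_le {N : ℕ} (P : Fin N → Fin 2 → ℝ) (x y : Fin 2 → ℝ)
    (hx : x ∈ Set.Icc (0 : Fin 2 → ℝ) 1) (hy : y ∈ Set.Icc (0 : Fin 2 → ℝ) 1) :
    perInt P x y ≤ N := by
  unfold perInt
  have s0 := sum_ite_nonneg N (fun k : Fin N => ∀ j : Fin 2,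
    (x j ≤ y j ∧ x j ≤ P k j ∧ P k j < y j) ∨ (y j < x j ∧ (P k j < y j ∨ x j ≤ P k j)))
  have s1 := sum_ite_le N (fun k : Fin N => ∀ j : Fin 2,
    (x j ≤ y j ∧ x j ≤ P k j ∧ P k j < y j) ∨ (y j < x j ∧ (P k j < y j ∨ x j ≤ P k j)))
  have hb : ∀ j : Fin 2, 0 ≤ (if x j ≤ y j then y j - x j else 1 - x j + y j) ∧
      (if x j ≤ y j then y j - x j else 1 - x j + y j) ≤ 1 := by
    intro j
    have h1 := hx.1 j
    have h2 := hx.2 j
    have h3 := hy.1 j
    have h4 := hy.2 j
    simp only [Pi.zero_apply, Pi.one_apply] at h1 h2 h3 h4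
    split_ifs with hc
    · constructor <;> linarith
    · push Not at hc
      constructor <;> linarith
  have p0 : 0 ≤ ∏ j : Fin 2, (if x j ≤ y j then y j - x j else 1 - x j + y j) :=
    Finset.prod_nonneg (fun j _ => (hb j).1)
  have p1 : ∏ j : Fin 2, (if x j ≤ y j then y j - x j else 1 - x j + y j) ≤ 1 :=
    Finset.prod_le_one (fun j _ => (hb j).1) (fun j _ => (hb j).2)
  have hN : (0 : ℝ) ≤ N := by positivity
  have q0 : 0 ≤ (N : ℝ) * ∏ j : Fin 2, (if x j ≤ y j then y j - x j else 1 - x j + y j) :=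
    mul_nonneg hN p0
  have q1 : (N : ℝ) * ∏ j : Fin 2, (if x j ≤ y j then y j - x j else 1 - x j + y j) ≤ N := by
    calc (N : ℝ) * ∏ j : Fin 2, (if x j ≤ y j then y j - x j else 1 - x j + y j)
        ≤ N * 1 := mul_le_mul_of_nonneg_left p1 hN
      _ = N := mul_one _
  rw [abs_le]
  constructor <;> linarith

lemma perInt_big (n h : ℕ) (hn : 0 < n) (hh4 : 4 * h ≤ n) (hh6 : 6 ≤ h) (x y : Fin 2 → ℝ)
    (hx : x ∈ Set.Icc (![1 / 2, 1 / 2] : Fin 2 → ℝ) ![5 / 8, 3 / 4])
    (hy : y ∈ Set.Icc (![7 / 8, 0] : Fin 2 → ℝ) ![1, 1 / 4]) :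
    (n : ℝ) * (h - 6) / 4 ≤ perInt (pt n h) x y := by
  classical
  have hn' : (0 : ℝ) < n := by exact_mod_cast hn
  have hh6' : (6 : ℝ) ≤ h := by exact_mod_cast hh6
  have hx10 : 1 / 2 ≤ x 0 := by simpa using hx.1 0
  have hx11 : 1 / 2 ≤ x 1 := by simpa using hx.1 1
  have hx20 : x 0 ≤ 5 / 8 := by simpa using hx.2 0
  have hx21 : x 1 ≤ 3 / 4 := by simpa using hx.2 1
  have hy10 : 7 / 8 ≤ y 0 := by simpa using hy.1 0
  have hy11 : 0 ≤ y 1 := by simpa using hy.1 1
  have hy20 : y 0 ≤ 1 := by simpa using hy.2 0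
  have hy21 : y 1 ≤ 1 / 4 := by simpa using hy.2 1
  have hhn : (h : ℝ) / n ≤ 1 / 4 := by
    rw [div_le_iff₀ hn']
    have : (4 : ℝ) * h ≤ n := by exact_mod_cast hh4
    linarith
  unfold perInt
  have hsum := sum_pt n h (fun z => if (∀ j : Fin 2, (x j ≤ y j ∧ x j ≤ z j ∧ z j < y j) ∨
        (y j < x j ∧ (z j < y j ∨ x j ≤ z j))) then (1 : ℝ) else 0)
  rw [hsum]
  have hcount := count_periodic n h hn (x 0) (y 0) (x 1) (y 1) (by linarith) (by linarith)
    (by linarith) (by linarith) (by linarith) (by linarith) (by linarith)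
  have heq : (∑ j : Fin n, ∑ i : Fin n,
      if (∀ k : Fin 2, (x k ≤ y k ∧ x k ≤ (![X n h i j, Y n j] : Fin 2 → ℝ) k ∧
        (![X n h i j, Y n j] : Fin 2 → ℝ) k < y k) ∨
        (y k < x k ∧ ((![X n h i j, Y n j] : Fin 2 → ℝ) k < y k ∨
          x k ≤ (![X n h i j, Y n j] : Fin 2 → ℝ) k))) then (1 : ℝ) else 0)
      = ∑ j : Fin n, ∑ i : Fin n,
        (if (x 0 ≤ X n h i j ∧ X n h i j < y 0) ∧ (Y n j < y 1 ∨ x 1 ≤ Y n j)
          then (1 : ℝ) else 0) := by
    apply Finset.sum_congr rfl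
    intro j _
    apply Finset.sum_congr rfl
    intro i _
    apply if_congr _ rfl rfl
    rw [Fin.forall_fin_two]
    simp only [Matrix.cons_val_zero, Matrix.cons_val_one]
    have c0 : x 0 ≤ y 0 := by linarith
    have c0' : ¬ (y 0 < x 0) := by linarith
    have c1 : ¬ (x 1 ≤ y 1) := by linarith
    have c1' : y 1 < x 1 := by linarith
    simp only [c0, c0', c1, c1', true_and, false_and, or_false, false_or]
  rw [heq]
  set S := ∑ j : Fin n, ∑ i : Fin n,
        (if (x 0 ≤ X n h i j ∧ X n h i j < y 0) ∧ (Y n j < y 1 ∨ x 1 ≤ Y n j)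
          then (1 : ℝ) else 0) with hS
  have hprod : ∏ j : Fin 2, (if x j ≤ y j then y j - x j else 1 - x j + y j)
      = (y 0 - x 0) * (1 - x 1 + y 1) := by
    rw [Fin.prod_univ_two, if_pos (by linarith), if_neg (by linarith)]
  rw [hprod]
  push_cast
  have hge : (n : ℝ) * n * ((y 0 - x 0) * (1 - x 1 + y 1)) - S ≤
      |S - (n : ℝ) * n * ((y 0 - x 0) * (1 - x 1 + y 1))| := by
    rw [abs_sub_comm]; exact le_abs_self _
  refine le_trans ?_ hge
  have hA : (1 : ℝ) / 4 ≤ y 0 - x 0 := by linarith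
  have hB : 1 - x 1 + y 1 ≤ (1 : ℝ) := by linarith
  have key : (n : ℝ) * (h - 6) / 4 ≤ (h - 2) * (n * (y 0 - x 0) + 1) - n * (1 - x 1 + y 1) := by
    have h1 : (h - 2 : ℝ) * (n * (1 / 4)) ≤ (h - 2) * (n * (y 0 - x 0)) := by
      apply mul_le_mul_of_nonneg_left _ (by linarith)
      exact mul_le_mul_of_nonneg_left hA hn'.le
    have h2 : (n : ℝ) * (1 - x 1 + y 1) ≤ n * 1 := mul_le_mul_of_nonneg_left hB hn'.le
    nlinarith
  nlinarith [hcount, key]

lemma per_big (n h : ℕ) (hn : 0 < n) (hh4 : 4 * h ≤ n) (hh6 : 6 ≤ h) :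
    (n : ℝ) * (h - 6) / 4096 ≤
      ∫ x in Set.Icc (0 : Fin 2 → ℝ) 1, ∫ y in Set.Icc (0 : Fin 2 → ℝ) 1,
        perInt (pt n h) x y := by
  have v1 : (volume : Measure (Fin 2 → ℝ)).real
      (Set.Icc (![1 / 2, 1 / 2] : Fin 2 → ℝ) ![5 / 8, 3 / 4]) = 1 / 32 := by
    rw [measureReal_def, Real.volume_Icc_pi_toReal]
    · simp [Fin.prod_univ_two]; norm_num
    · intro i; fin_cases i <;> norm_num
  have v2 : (volume : Measure (Fin 2 → ℝ)).real
      (Set.Icc (![7 / 8, 0] : Fin 2 → ℝ) ![1, 1 / 4]) = 1 / 32 := by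
    rw [measureReal_def, Real.volume_Icc_pi_toReal]
    · simp [Fin.prod_univ_two]; norm_num
    · intro i; fin_cases i <;> norm_num
  have key := per_lower (perInt (pt n h)) (meas_perInt _) ((n * n : ℕ) : ℝ)
    ((n : ℝ) * (h - 6) / 4) (fun x y => abs_nonneg _)
    (fun x hx y hy => perInt_le _ x y hx hy)
    (Set.Icc (![1 / 2, 1 / 2] : Fin 2 → ℝ) ![5 / 8, 3 / 4])
    (Set.Icc (![7 / 8, 0] : Fin 2 → ℝ) ![1, 1 / 4])
    (by
      apply Set.Icc_subset_Icc
      · intro i; fin_cases i <;> norm_num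
      · intro i; fin_cases i <;> norm_num)
    (by
      apply Set.Icc_subset_Icc
      · intro i; fin_cases i <;> norm_num
      · intro i; fin_cases i <;> norm_num)
    measurableSet_Icc measurableSet_Icc
    (fun x hx y hy => perInt_big n h hn hh4 hh6 x y hx hy)
  rw [v1, v2] at key
  refine le_trans (le_of_eq ?_) key
  ring

end Pool.Agent.H739R3.Disc
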