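import Mathlib

set_option autoImplicit false

namespace Pool.Agent.H739R3.ExpPair

open Real intervalIntegral

/-- the integrand -/
noncomputable def hh (ν z : ℝ) : ℝ := 6 * (ν + z) * cos (2 * π * (z ^ 2 * (3 * ν + 2 * z)))

/-- a primitive up to a bounded-variation error -/
noncomputable def RR (ν z : ℝ) : ℝ := (sin (2 * π * (z ^ 2 * (3 * ν + 2 * z))) + 1) / (2 * π * z)

lemma hh_cont (ν : ℝ) : Continuous (hh ν) := by
  unfold hh
  fun_prop

lemma RR_deriv (ν z : ℝ) (hz : z ≠ 0) :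
    HasDerivAt (RR ν) (hh ν z - (sin (2 * π * (z ^ 2 * (3 * ν + 2 * z))) + 1) / (2 * π * z ^ 2)) z
    := by
  have h1 : HasDerivAt (fun z : ℝ => 2 * π * (z ^ 2 * (3 * ν + 2 * z)))
      (2 * π * (6 * ν * z + 6 * z ^ 2)) z := by
    have a1 : HasDerivAt (fun z : ℝ => z ^ 2) (2 * z) z := by
      simpa using hasDerivAt_pow 2 z
    have a2 : HasDerivAt (fun z : ℝ => 3 * ν + 2 * z) 2 z := by
      simpa using ((hasDerivAt_id z).const_mul 2).const_add (3 * ν)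
    have a3 : HasDerivAt (fun z : ℝ => 2 * π * (z ^ 2 * (3 * ν + 2 * z)))
        (2 * π * ((2 * z) * (3 * ν + 2 * z) + z ^ 2 * 2)) z := (a1.mul a2).const_mul (2 * π)
    exact a3.congr_deriv (by ring)
  have h2 : HasDerivAt (fun z : ℝ => sin (2 * π * (z ^ 2 * (3 * ν + 2 * z))) + 1)
      (cos (2 * π * (z ^ 2 * (3 * ν + 2 * z))) * (2 * π * (6 * ν * z + 6 * z ^ 2))) z :=
    h1.sin.add_const 1
  have h3 : HasDerivAt (fun z : ℝ => 2 * π * z) (2 * π) z := by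
    simpa using (hasDerivAt_id z).const_mul (2 * π)
  have hne : 2 * π * z ≠ 0 := by
    have := pi_pos
    positivity
  have h4 : HasDerivAt (fun z : ℝ => (sin (2 * π * (z ^ 2 * (3 * ν + 2 * z))) + 1) / (2 * π * z))
      ((cos (2 * π * (z ^ 2 * (3 * ν + 2 * z))) * (2 * π * (6 * ν * z + 6 * z ^ 2)) * (2 * π * z)
        - (sin (2 * π * (z ^ 2 * (3 * ν + 2 * z))) + 1) * (2 * π)) / (2 * π * z) ^ 2) z :=
    h2.div h3 hne
  refine h4.congr_deriv ?_
  unfold hh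
  have hpi : π ≠ 0 := pi_ne_zero
  field_simp

lemma tail_ge (ν p q : ℝ) (hpq : p ≤ q) (h0 : ∀ z ∈ Set.Icc p q, z ≠ 0) :
    RR ν q - RR ν p ≤ ∫ z in p..q, hh ν z := by
  have hcont : ContinuousOn
      (fun z => hh ν z - (sin (2 * π * (z ^ 2 * (3 * ν + 2 * z))) + 1) / (2 * π * z ^ 2))
      (Set.uIcc p q) := by
    rw [Set.uIcc_of_le hpq]
    apply ContinuousOn.sub (hh_cont ν).continuousOn
    apply ContinuousOn.div
    · fun_prop
    · fun_prop
    · intro z hz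
      have h := h0 z hz
      have := pi_pos
      positivity
  have e := integral_eq_sub_of_hasDerivAt (f := RR ν)
    (f' := fun z => hh ν z - (sin (2 * π * (z ^ 2 * (3 * ν + 2 * z))) + 1) / (2 * π * z ^ 2))
    (a := p) (b := q)
    (by
      intro z hz
      rw [Set.uIcc_of_le hpq] at hz
      exact RR_deriv ν z (h0 z hz))
    hcont.intervalIntegrable
  rw [← e]
  apply integral_mono_on hpq hcont.intervalIntegrable ((hh_cont ν).intervalIntegrable _ _)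
  intro z hz
  have h1 : -1 ≤ sin (2 * π * (z ^ 2 * (3 * ν + 2 * z))) := neg_one_le_sin _
  have h2 : 0 ≤ (sin (2 * π * (z ^ 2 * (3 * ν + 2 * z))) + 1) / (2 * π * z ^ 2) := by
    apply div_nonneg
    · linarith
    · have := pi_pos
      positivity
  linarith

lemma RR_pos (ν z : ℝ) (hz : 0 < z) : 0 ≤ RR ν z ∧ RR ν z ≤ 1 / (π * z) := by
  have h1 : -1 ≤ sin (2 * π * (z ^ 2 * (3 * ν + 2 * z))) := neg_one_le_sin _
  have h2 : sin (2 * π * (z ^ 2 * (3 * ν + 2 * z))) ≤ 1 := sin_le_one _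
  have hpi := pi_pos
  unfold RR
  constructor
  · apply div_nonneg
    · linarith
    · positivity
  · rw [div_le_div_iff₀ (by positivity) (by positivity)]
    have h3 : 0 < π * z := by positivity
    nlinarith

lemma RR_neg (ν z : ℝ) (hz : z < 0) : 1 / (π * z) ≤ RR ν z ∧ RR ν z ≤ 0 := by
  have h1 : -1 ≤ sin (2 * π * (z ^ 2 * (3 * ν + 2 * z))) := neg_one_le_sin _
  have h2 : sin (2 * π * (z ^ 2 * (3 * ν + 2 * z))) ≤ 1 := sin_le_one _
  have hpi := pi_pos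
  have h3 : π * z < 0 := mul_neg_of_pos_of_neg hpi hz
  unfold RR
  constructor
  · have e : 1 / (π * z) = 2 / (2 * π * z) := by
      have : z ≠ 0 := hz.ne
      field_simp
    rw [e]
    apply div_le_div_of_nonpos_of_le
    · nlinarith
    · linarith
  · apply div_nonpos_of_nonneg_of_nonpos
    · linarith
    · nlinarith

lemma middle_ge (ν δ : ℝ) (hν : 2 ≤ ν) (hδ : 0 < δ) (h12 : 12 * ν * δ ^ 2 = 1) (hδν : δ ≤ ν) :
    12 * ν * δ - 12 * π ^ 2 * (18 * ν ^ 3 * δ ^ 5 / 5 + 32 * ν * δ ^ 7 / 7) ≤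
      ∫ z in (-δ)..δ, hh ν z := by
  have hpoly : ∀ z : ℝ, HasDerivAt (fun z : ℝ => 6 * ν * z + 3 * z ^ 2 - 12 * π ^ 2 *
      (9 * ν ^ 3 * z ^ 5 / 5 + 7 * ν ^ 2 * z ^ 6 / 2 + 16 * ν * z ^ 7 / 7 + z ^ 8 / 2))
      (6 * (ν + z) * (1 - (2 * π * (z ^ 2 * (3 * ν + 2 * z))) ^ 2 / 2)) z := by
    intro z
    have p1 : HasDerivAt (fun z : ℝ => z) 1 z := hasDerivAt_id z
    have p2 : HasDerivAt (fun z : ℝ => z ^ 2) (2 * z) z := by simpa using hasDerivAt_pow 2 z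
    have p5 : HasDerivAt (fun z : ℝ => z ^ 5) (5 * z ^ 4) z := by simpa using hasDerivAt_pow 5 z
    have p6 : HasDerivAt (fun z : ℝ => z ^ 6) (6 * z ^ 5) z := by simpa using hasDerivAt_pow 6 z
    have p7 : HasDerivAt (fun z : ℝ => z ^ 7) (7 * z ^ 6) z := by simpa using hasDerivAt_pow 7 z
    have p8 : HasDerivAt (fun z : ℝ => z ^ 8) (8 * z ^ 7) z := by simpa using hasDerivAt_pow 8 z
    have q1 := (p1.const_mul (6 * ν)).add (p2.const_mul 3)
    have q2 := ((((p5.const_mul (9 * ν ^ 3)).div_const 5).add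
      ((p6.const_mul (7 * ν ^ 2)).div_const 2)).add ((p7.const_mul (16 * ν)).div_const 7)).add
      (p8.div_const 2)
    have q3 : HasDerivAt (fun z : ℝ => 6 * ν * z + 3 * z ^ 2 - 12 * π ^ 2 *
        (9 * ν ^ 3 * z ^ 5 / 5 + 7 * ν ^ 2 * z ^ 6 / 2 + 16 * ν * z ^ 7 / 7 + z ^ 8 / 2))
        (6 * ν * 1 + 3 * (2 * z) - 12 * π ^ 2 * (9 * ν ^ 3 * (5 * z ^ 4) / 5
          + 7 * ν ^ 2 * (6 * z ^ 5) / 2 + 16 * ν * (7 * z ^ 6) / 7 + 8 * z ^ 7 / 2)) z :=
      q1.sub (q2.const_mul (12 * π ^ 2))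
    exact q3.congr_deriv (by ring)
  have hc : Continuous (fun z : ℝ => 6 * (ν + z) *
      (1 - (2 * π * (z ^ 2 * (3 * ν + 2 * z))) ^ 2 / 2)) := by fun_prop
  have e := integral_eq_sub_of_hasDerivAt (a := -δ) (b := δ) (fun z _ => hpoly z)
    (hc.intervalIntegrable _ _)
  have hle : (∫ z in (-δ)..δ, 6 * (ν + z) *
      (1 - (2 * π * (z ^ 2 * (3 * ν + 2 * z))) ^ 2 / 2)) ≤ ∫ z in (-δ)..δ, hh ν z := by
    apply integral_mono_on (by linarith) (hc.intervalIntegrable _ _)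
      ((hh_cont ν).intervalIntegrable _ _)
    intro z hz
    unfold hh
    apply mul_le_mul_of_nonneg_left
    · exact one_sub_sq_div_two_le_cos
    · have := hz.1
      linarith
  refine le_trans (le_of_eq ?_) hle
  rw [e]
  ring

lemma main_integral (ν δ α β : ℝ) (hν : 2 ≤ ν) (hδ : 0 < δ) (h12 : 12 * ν * δ ^ 2 = 1)
    (hα : δ ≤ α) (hβ : δ ≤ β) (hδν : δ ≤ ν) :
    1 / (10 * δ) ≤ ∫ z in (-α)..β, hh ν z := by
  have hi : ∀ p q : ℝ, IntervalIntegrable (hh ν) MeasureTheory.volume p q :=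
    fun p q => (hh_cont ν).intervalIntegrable p q
  have hsplit : ∫ z in (-α)..β, hh ν z =
      (∫ z in (-α)..(-δ), hh ν z) + (∫ z in (-δ)..δ, hh ν z) + (∫ z in δ..β, hh ν z) := by
    rw [integral_add_adjacent_intervals (hi _ _) (hi _ _),
      integral_add_adjacent_intervals (hi _ _) (hi _ _)]
  have t1 := tail_ge ν (-α) (-δ) (by linarith) (by
    intro z hz h0
    rw [h0] at hz
    linarith [hz.2])
  have t2 := tail_ge ν δ β hβ (by
    intro z hz h0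
    rw [h0] at hz
    linarith [hz.1])
  have t3 := middle_ge ν δ hν hδ h12 hδν
  have r1 := (RR_neg ν (-δ) (by linarith)).1
  have r2 := (RR_neg ν (-α) (by linarith)).2
  have r3 := (RR_pos ν β (by linarith)).1
  have r4 := (RR_pos ν δ hδ).2
  have hpi := pi_pos
  have r1' : -(1 / (π * δ)) ≤ RR ν (-δ) := by
    have : 1 / (π * (-δ)) = -(1 / (π * δ)) := by
      rw [mul_neg, div_neg]
    linarith
  rw [hsplit]
  -- numerical part
  have hpi1 : π < 3.15 := pi_lt_d2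
  have hpi2 : 3.14 < π := pi_gt_d2
  have k1 : 12 * ν * δ = 1 / δ := by
    field_simp
    linarith
  have k2 : ν = 1 / (12 * δ ^ 2) := by
    field_simp
    linarith
  have k3 : 12 * π ^ 2 * (18 * ν ^ 3 * δ ^ 5 / 5) = π ^ 2 / 40 * (1 / δ) := by
    rw [k2]
    field_simp
    ring
  have k4 : 12 * π ^ 2 * (32 * ν * δ ^ 7 / 7) = (32 / 7 * π ^ 2 * δ ^ 6) * (1 / δ) := by
    rw [k2]
    field_simp
  have k5 : 12 * ν * δ - 12 * π ^ 2 * (18 * ν ^ 3 * δ ^ 5 / 5 + 32 * ν * δ ^ 7 / 7)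
      = (1 - π ^ 2 / 40 - 32 / 7 * π ^ 2 * δ ^ 6) * (1 / δ) := by
    rw [mul_add, k3, k4, k1]
    ring
  rw [k5] at t3
  have d2 : δ ^ 2 ≤ 1 / 24 := by
    have : 24 * δ ^ 2 ≤ 12 * ν * δ ^ 2 := by
      apply mul_le_mul_of_nonneg_right _ (by positivity)
      linarith
    linarith
  have d6 : δ ^ 6 ≤ 1 / 13824 := by
    have e : δ ^ 6 = (δ ^ 2) ^ 3 := by ring
    rw [e]
    calc (δ ^ 2) ^ 3 ≤ (1 / 24) ^ 3 := by
          apply pow_le_pow_left₀ (by positivity) d2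
      _ = 1 / 13824 := by norm_num
  have p2 : π ^ 2 ≤ 9.9225 := by nlinarith
  have c1 : (1 - π ^ 2 / 40 - 32 / 7 * π ^ 2 * δ ^ 6) ≥ 0.748 := by
    have : π ^ 2 * δ ^ 6 ≤ 9.9225 * (1 / 13824) := by
      apply mul_le_mul p2 d6 (by positivity) (by norm_num)
    nlinarith
  have inv_pos : 0 < 1 / δ := by positivity
  have c2 : 1 / (π * δ) ≤ 0.3185 * (1 / δ) := by
    rw [div_le_iff₀ (by positivity)]
    have : 0.3185 * (1 / δ) * (π * δ) = 0.3185 * π := by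
      field_simp
    rw [this]
    linarith
  have c3 : 1 / (10 * δ) = 0.1 * (1 / δ) := by
    field_simp
    norm_num
  rw [c3]
  have c4 : 0.748 * (1 / δ) ≤ (1 - π ^ 2 / 40 - 32 / 7 * π ^ 2 * δ ^ 6) * (1 / δ) :=
    mul_le_mul_of_nonneg_right c1 inv_pos.le
  linarith

end Pool.Agent.H739R3.ExpPair
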