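import Mathlib

set_option autoImplicit false

namespace Pool.Agent.H739R3.ExpPair

open Real

/-- the phase `2 ((x+s)/3)^{3/2}` -/
noncomputable def ff (s x : ℝ) : ℝ := 2 * ((x + s) / 3) ^ (3 / 2 : ℝ)

/-- the constants in its derivatives -/
noncomputable def AA : ℕ → ℝ
  | 0 => 2 * (1 / 3 : ℝ) ^ (3 / 2 : ℝ)
  | (j + 1) => AA j * (3 / 2 - j)

lemma AA_ne (j : ℕ) : AA j ≠ 0 := by
  induction j with
  | zero =>
    unfold AA
    positivity
  | succ j ih =>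
    unfold AA
    apply mul_ne_zero ih
    intro h
    have h1 : (2 : ℝ) * j = 3 := by linarith
    have h2 : 2 * j = 3 := by exact_mod_cast h1
    omega

lemma ff_zero (s x : ℝ) (hx : 0 ≤ x + s) : ff s x = AA 0 * (x + s) ^ (3 / 2 : ℝ) := by
  unfold ff AA
  rw [div_eq_mul_inv, mul_comm (x + s), Real.mul_rpow (by norm_num) hx]
  rw [show (3 : ℝ)⁻¹ = 1 / 3 by norm_num]
  ring

lemma ff_iter (N s : ℝ) (hN : 0 < N) (hs : 0 ≤ s) (j : ℕ) :
    ∀ x ∈ Set.Icc N (2 * N),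
      iteratedDerivWithin j (ff s) (Set.Icc N (2 * N)) x = AA j * (x + s) ^ (3 / 2 - j : ℝ) := by
  induction j with
  | zero =>
    intro x hx
    rw [iteratedDerivWithin_zero, ff_zero s x (by linarith [hx.1])]
    simp
  | succ j ih =>
    intro x hx
    rw [iteratedDerivWithin_succ]
    rw [derivWithin_congr (fun y hy => ih y hy) (ih x hx)]
    have hpos : 0 < x + s := by linarith [hx.1]
    have h1 : HasDerivAt (fun y : ℝ => y + s) 1 x := (hasDerivAt_id x).add_const s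
    have h2 := h1.rpow_const (p := (3 / 2 - j : ℝ)) (Or.inl hpos.ne')
    have h3 : HasDerivAt (fun y : ℝ => AA j * (y + s) ^ (3 / 2 - j : ℝ))
        (AA j * (1 * (3 / 2 - j : ℝ) * (x + s) ^ ((3 / 2 - j : ℝ) - 1))) x := h2.const_mul (AA j)
    have hu : UniqueDiffWithinAt ℝ (Set.Icc N (2 * N)) x :=
      (uniqueDiffOn_Icc (by linarith)) x hx
    rw [h3.hasDerivWithinAt.derivWithin hu]
    have e : ((3 / 2 - j : ℝ) - 1) = (3 / 2 - ((j + 1 : ℕ) : ℝ)) := by push_cast; ring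
    rw [e]
    show _ = AA j * (3 / 2 - j) * _
    ring

lemma ff_contDiffOn (N s : ℝ) (hN : 0 < N) (hs : 0 ≤ s) :
    ContDiffOn ℝ (⊤ : ℕ∞) (ff s) (Set.Icc N (2 * N)) := by
  intro x hx
  have hpos : 0 < (x + s) / 3 := by
    have := hx.1
    apply div_pos _ (by norm_num)
    linarith
  apply ContDiffAt.contDiffWithinAt
  unfold ff
  apply ContDiffAt.mul contDiffAt_const
  have h1 : ContDiffAt ℝ (⊤ : ℕ∞) (fun y : ℝ => (y + s) / 3) x := by fun_prop
  exact ContDiffAt.rpow_const_of_ne h1 hpos.ne'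

lemma rpow_between (r e : ℝ) (h1 : 1 ≤ r) (h3 : r ≤ 3) :
    min 1 ((3 : ℝ) ^ e) ≤ r ^ e ∧ r ^ e ≤ max 1 ((3 : ℝ) ^ e) := by
  rcases le_or_gt 0 e with he | he
  · constructor
    · exact (min_le_left _ _).trans (one_le_rpow h1 he)
    · exact le_trans (rpow_le_rpow (by linarith) h3 he) (le_max_right _ _)
  · constructor
    · refine (min_le_right _ _).trans ?_
      exact rpow_le_rpow_of_nonpos (by linarith) h3 he.le
    · exact le_trans (rpow_le_one_of_one_le_of_nonpos h1 he.le) (le_max_left _ _)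

/-- lower constants -/
noncomputable def cc (j : ℕ) : ℝ := |AA j| * min 1 ((3 : ℝ) ^ (3 / 2 - j : ℝ))
/-- upper constants -/
noncomputable def CC (j : ℕ) : ℝ := |AA j| * max 1 ((3 : ℝ) ^ (3 / 2 - j : ℝ))

lemma cc_pos (j : ℕ) : 0 < cc j := by
  unfold cc
  apply mul_pos (abs_pos.mpr (AA_ne j))
  apply lt_min (by norm_num)
  positivity

lemma CC_pos (j : ℕ) : 0 < CC j := by
  unfold CC
  apply mul_pos (abs_pos.mpr (AA_ne j))
  apply lt_of_lt_of_le _ (le_max_left _ _)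
  norm_num

lemma ff_bounds (N s : ℝ) (hN : 2 ≤ N) (hs : 0 ≤ s) (hs1 : s ≤ 1) (j : ℕ) (x : ℝ)
    (hx : x ∈ Set.Icc N (2 * N)) :
    cc j * N ^ (3 / 2 : ℝ) / N ^ j ≤ |iteratedDerivWithin j (ff s) (Set.Icc N (2 * N)) x| ∧
    |iteratedDerivWithin j (ff s) (Set.Icc N (2 * N)) x| ≤ CC j * N ^ (3 / 2 : ℝ) / N ^ j := by
  have hN0 : 0 < N := by linarith
  rw [ff_iter N s hN0 hs j x hx]
  have hr1 : 1 ≤ (x + s) / N := by
    rw [le_div_iff₀ hN0]
    linarith [hx.1]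
  have hr3 : (x + s) / N ≤ 3 := by
    rw [div_le_iff₀ hN0]
    linarith [hx.2]
  obtain ⟨b1, b2⟩ := rpow_between ((x + s) / N) (3 / 2 - j) hr1 hr3
  have e1 : (x + s) ^ (3 / 2 - j : ℝ) = N ^ (3 / 2 - j : ℝ) * ((x + s) / N) ^ (3 / 2 - j : ℝ) := by
    rw [← Real.mul_rpow hN0.le (by linarith)]
    congr 1
    field_simp
  have e2 : N ^ (3 / 2 - j : ℝ) = N ^ (3 / 2 : ℝ) / N ^ j := Real.rpow_sub_natCast hN0.ne' _ _
  have hpow : 0 < N ^ (3 / 2 : ℝ) / N ^ j := by positivity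
  have habs : |AA j * (x + s) ^ (3 / 2 - j : ℝ)| =
      |AA j| * ((N ^ (3 / 2 : ℝ) / N ^ j) * ((x + s) / N) ^ (3 / 2 - j : ℝ)) := by
    rw [abs_mul, e1, e2]
    congr 1
    apply abs_of_nonneg
    apply mul_nonneg hpow.le
    apply Real.rpow_nonneg
    linarith
  rw [habs]
  constructor
  · unfold cc
    calc |AA j| * min 1 ((3 : ℝ) ^ (3 / 2 - j : ℝ)) * N ^ (3 / 2 : ℝ) / N ^ j
        = |AA j| * ((N ^ (3 / 2 : ℝ) / N ^ j) * min 1 ((3 : ℝ) ^ (3 / 2 - j : ℝ))) := by ring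
      _ ≤ _ := by
        apply mul_le_mul_of_nonneg_left _ (abs_nonneg _)
        exact mul_le_mul_of_nonneg_left b1 hpow.le
  · unfold CC
    calc |AA j| * ((N ^ (3 / 2 : ℝ) / N ^ j) * ((x + s) / N) ^ (3 / 2 - j : ℝ))
        ≤ |AA j| * ((N ^ (3 / 2 : ℝ) / N ^ j) * max 1 ((3 : ℝ) ^ (3 / 2 - j : ℝ))) := by
          apply mul_le_mul_of_nonneg_left _ (abs_nonneg _)
          exact mul_le_mul_of_nonneg_left b2 hpow.le
      _ = _ := by ring

end Pool.Agent.H739R3.ExpPair
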