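import Mathlib
import Pool.Agent.H739R3.ExpPair1
import Pool.Agent.H739R3.ExpPair2

set_option autoImplicit false

namespace Pool.Agent.H739R3.ExpPair

open Real intervalIntegral

/-- `e(x) = exp(2 π i x)` -/
noncomputable def ee (x : ℝ) : ℂ := Complex.exp (2 * (Real.pi : ℂ) * Complex.I * ((x : ℝ) : ℂ))

lemma ee_add (x y : ℝ) : ee (x + y) = ee x * ee y := by
  unfold ee
  rw [← Complex.exp_add]
  congr 1
  push_cast
  ring

lemma ee_int (n : ℤ) : ee (n : ℝ) = 1 := by
  unfold ee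
  rw [Complex.exp_eq_one_iff]
  exact ⟨n, by push_cast; ring⟩

lemma ee_eq (x : ℝ) : ee x = Complex.exp (((2 * π * x : ℝ) : ℂ) * Complex.I) := by
  unfold ee
  congr 1
  push_cast
  ring

lemma norm_ee (x : ℝ) : ‖ee x‖ = 1 := by
  rw [ee_eq, Complex.norm_exp_ofReal_mul_I]

lemma ee_re (x : ℝ) : (ee x).re = cos (2 * π * x) := by
  rw [ee_eq, Complex.exp_ofReal_mul_I_re]

lemma ee_cont : Continuous ee := by
  unfold ee
  fun_prop

lemma ff_cont (s : ℝ) : Continuous (ff s) := by
  unfold ff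
  apply Continuous.mul continuous_const
  have h1 : Continuous (fun x : ℝ => (x + s) / 3) := by fun_prop
  exact (continuous_rpow_const (by norm_num)).comp h1

lemma ff_shift (s x : ℝ) : ff s x = ff 0 (x + s) := by
  unfold ff
  simp

/-- the oscillatory integrals -/
noncomputable def II (A B : ℝ) (ν : ℤ) : ℂ := ∫ x in A..B, ee (ff 0 x - ν * x)

/-- Real part of the oscillatory integral, bounded below. -/
lemma II_re_ge (m : ℕ) (hm : 1 ≤ m) (ν : ℤ) (h1 : 11 * (m : ℤ) ≤ ν) (h2 : ν ≤ 13 * (m : ℤ)) :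
    √m ≤ (II (300 * (m : ℝ) ^ 2) (588 * (m : ℝ) ^ 2) ν).re := by
  have hm' : (1 : ℝ) ≤ m := by exact_mod_cast hm
  have hv1 : 11 * (m : ℝ) ≤ (ν : ℝ) := by exact_mod_cast h1
  have hv2 : (ν : ℝ) ≤ 13 * (m : ℝ) := by exact_mod_cast h2
  have hcont : Continuous (fun x : ℝ => ee (ff 0 x - (ν : ℝ) * x)) :=
    ee_cont.comp ((ff_cont 0).sub (continuous_const.mul continuous_id))
  have hre : (II (300 * (m : ℝ) ^ 2) (588 * (m : ℝ) ^ 2) ν).re =
      ∫ x in (300 * (m : ℝ) ^ 2)..(588 * (m : ℝ) ^ 2),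
        cos (2 * π * (ff 0 x - (ν : ℝ) * x + (ν : ℝ) ^ 3)) := by
    unfold II
    have := intervalIntegral_re (𝕜 := ℂ)
      (hcont.intervalIntegrable (μ := MeasureTheory.volume) (300 * (m : ℝ) ^ 2) (588 * (m : ℝ) ^ 2))
    simp only [RCLike.re_eq_complex_re] at this
    rw [← this]
    apply integral_congr
    intro x _
    simp only [ee_re]
    have e : 2 * π * (ff 0 x - (ν : ℝ) * x + (ν : ℝ) ^ 3) =
        2 * π * (ff 0 x - (ν : ℝ) * x) + ((ν ^ 3 : ℤ) : ℝ) * (2 * π) := by
      push_cast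
      ring
    rw [e, cos_add_int_mul_two_pi]
  rw [hre]
  generalize (ν : ℝ) = v at hv1 hv2
  have hvpos : 0 < v := by linarith
  have hsub : (∫ z in (-(v - 10 * m))..(14 * m - v),
      ((fun x => cos (2 * π * (ff 0 x - v * x + v ^ 3))) ∘ (fun z => 3 * (v + z) ^ 2)) z
        * (6 * (v + z))) = ∫ x in (300 * (m : ℝ) ^ 2)..(588 * (m : ℝ) ^ 2),
        cos (2 * π * (ff 0 x - v * x + v ^ 3)) := by
    have hg : Continuous (fun x => cos (2 * π * (ff 0 x - v * x + v ^ 3))) := by
      have := ff_cont 0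
      fun_prop
    have hd : ∀ z ∈ Set.uIcc (-(v - 10 * m)) (14 * m - v),
        HasDerivAt (fun z : ℝ => 3 * (v + z) ^ 2) (6 * (v + z)) z := by
      intro z _
      have a1 : HasDerivAt (fun z : ℝ => v + z) 1 z := (hasDerivAt_id z).const_add v
      have a2 : HasDerivAt (fun z : ℝ => 3 * (v + z) ^ 2)
        (3 * (((2 : ℕ) : ℝ) * (v + z) ^ (2 - 1) * 1)) z := (a1.pow 2).const_mul 3
      refine a2.congr_deriv ?_
      push_cast
      ring
    have := integral_comp_mul_deriv (a := -(v - 10 * m)) (b := 14 * m - v) hd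
      (by fun_prop) hg
    rw [this]
    congr 1
    · ring
    · ring
  rw [← hsub]
  have hcongr : (∫ z in (-(v - 10 * m))..(14 * m - v),
      ((fun x => cos (2 * π * (ff 0 x - v * x + v ^ 3))) ∘ (fun z => 3 * (v + z) ^ 2)) z
        * (6 * (v + z))) = ∫ z in (-(v - 10 * m))..(14 * m - v), hh v z := by
    apply integral_congr
    intro z hz
    rw [Set.uIcc_of_le (by linarith)] at hz
    have hvz : 0 ≤ v + z := by linarith [hz.1]
    have hff : ff 0 (3 * (v + z) ^ 2) = 2 * (v + z) ^ 3 := by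
      unfold ff
      rw [add_zero, mul_div_cancel_left₀ _ (by norm_num : (3 : ℝ) ≠ 0)]
      congr 1
      rw [← Real.rpow_natCast (v + z) 2, ← Real.rpow_mul hvz, ← Real.rpow_natCast (v + z) 3]
      norm_num
    simp only [Function.comp]
    rw [hff]
    unfold hh
    rw [mul_comm]
    congr 2
    ring
  rw [hcongr]
  set δ : ℝ := 1 / √(12 * v) with hδ
  have hs : 0 < √(12 * v) := Real.sqrt_pos.mpr (by linarith)
  have hδpos : 0 < δ := by rw [hδ]; positivity
  have h12 : 12 * v * δ ^ 2 = 1 := by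
    rw [hδ, div_pow, Real.sq_sqrt (by linarith)]
    field_simp
  have hs10 : 10 * √m ≤ √(12 * v) := by
    have : 10 * √(m : ℝ) = √(100 * m) := by
      rw [Real.sqrt_mul (by norm_num)]
      congr 1
      rw [show (100 : ℝ) = 10 ^ 2 by norm_num, Real.sqrt_sq (by norm_num)]
    rw [this]
    apply Real.sqrt_le_sqrt
    linarith
  have hm1 : 1 ≤ √(m : ℝ) := by
    rw [Real.one_le_sqrt]; exact hm'
  have hδ1 : δ ≤ 1 := by
    rw [hδ, div_le_one hs]
    linarith
  have key := main_integral v δ (v - 10 * m) (14 * m - v) (by linarith) hδpos h12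
    (by linarith) (by linarith) (by linarith)
  refine le_trans ?_ key
  have e : 1 / (10 * δ) = √(12 * v) / 10 := by
    rw [hδ]
    field_simp
  rw [e]
  linarith

end Pool.Agent.H739R3.ExpPair
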