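import Mathlib
import Pool.Agent.H739R3.ExpPair3

set_option autoImplicit false

namespace Pool.Agent.H739R3.ExpPair

open Real intervalIntegral

/-- the exponential sums -/
noncomputable def TT (A B : ℕ) (s : ℝ) : ℂ := ∑ n ∈ Finset.Ico A B, ee (ff s n)

lemma TT_cont (A B : ℕ) : Continuous (TT A B) := by
  unfold TT
  apply continuous_finsetSum
  intro n _
  have h1 : (fun s : ℝ => ee (ff s n)) = fun s : ℝ => ee (ff 0 ((n : ℝ) + s)) := by
    funext s
    rw [ff_shift]
  rw [h1]
  exact ee_cont.comp ((ff_cont 0).comp (by fun_prop))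

lemma ee_lin_cont (ν : ℤ) : Continuous (fun s : ℝ => ee (-(ν : ℝ) * s)) :=
  ee_cont.comp (by fun_prop)

lemma fourier (A B : ℕ) (hAB : A ≤ B) (ν : ℤ) :
    ∫ s in (0 : ℝ)..1, ee (-(ν : ℝ) * s) * TT A B s = II A B ν := by
  have hG : Continuous (fun x : ℝ => ee (ff 0 x - (ν : ℝ) * x)) :=
    ee_cont.comp ((ff_cont 0).sub (continuous_const.mul continuous_id))
  have e1 : ∀ s : ℝ, ee (-(ν : ℝ) * s) * TT A B s =
      ∑ n ∈ Finset.Ico A B, (fun x : ℝ => ee (ff 0 x - (ν : ℝ) * x)) ((n : ℝ) + s) := by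
    intro s
    unfold TT
    rw [Finset.mul_sum]
    apply Finset.sum_congr rfl
    intro n _
    simp only
    rw [← ee_add, ff_shift s n]
    have h : ff 0 ((n : ℝ) + s) - (ν : ℝ) * ((n : ℝ) + s) =
        (-(ν : ℝ) * s + ff 0 ((n : ℝ) + s)) + ((-ν * (n : ℤ) : ℤ) : ℝ) := by
      push_cast
      ring
    rw [h, ee_add _ ((-ν * (n : ℤ) : ℤ) : ℝ), ee_int, mul_one]
  simp only [e1]
  rw [integral_finsetSum]
  · unfold II
    have e2 : ∀ n ∈ Finset.Ico A B,
        (∫ s in (0 : ℝ)..1, (fun x : ℝ => ee (ff 0 x - (ν : ℝ) * x)) ((n : ℝ) + s)) =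
        ∫ x in (n : ℝ)..((n + 1 : ℕ) : ℝ), ee (ff 0 x - (ν : ℝ) * x) := by
      intro n _
      rw [integral_comp_add_left (fun x : ℝ => ee (ff 0 x - (ν : ℝ) * x)) (n : ℝ)]
      congr 1
      · simp
      · push_cast; ring
    rw [Finset.sum_congr rfl e2]
    exact sum_integral_adjacent_intervals_Ico (a := fun k : ℕ => (k : ℝ)) hAB
      (fun k _ => hG.intervalIntegrable _ _)
  · intro n _
    exact (hG.comp (by fun_prop : Continuous (fun s : ℝ => (n : ℝ) + s))).intervalIntegrable _ _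

/-- Dirichlet kernel -/
noncomputable def WW (M : ℕ) (s : ℝ) : ℂ := ∑ j ∈ Finset.range M, ee ((j : ℝ) * s)

lemma WW_cont (M : ℕ) : Continuous (WW M) := by
  unfold WW
  apply continuous_finsetSum
  intro n _
  exact ee_cont.comp (by fun_prop)

lemma ee_conj (x : ℝ) : (starRingEnd ℂ) (ee x) = ee (-x) := by
  rw [ee_eq, ee_eq, ← Complex.exp_conj]
  congr 1
  rw [map_mul, Complex.conj_ofReal, Complex.conj_I]
  push_cast
  ring

lemma WW_sq (M : ℕ) (s : ℝ) : ((‖WW M s‖ ^ 2 : ℝ) : ℂ) =
    ∑ j ∈ Finset.range M, ∑ k ∈ Finset.range M, ee (-(((k : ℤ) - (j : ℤ) : ℤ) : ℝ) * s) := by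
  have h : ((‖WW M s‖ ^ 2 : ℝ) : ℂ) = WW M s * (starRingEnd ℂ) (WW M s) := by
    rw [Complex.mul_conj, Complex.normSq_eq_norm_sq]
  rw [h]
  unfold WW
  rw [map_sum, Finset.sum_mul_sum]
  apply Finset.sum_congr rfl
  intro j _
  apply Finset.sum_congr rfl
  intro k _
  rw [ee_conj, ← ee_add]
  congr 1
  push_cast
  ring

lemma ee_integral (n : ℤ) : ∫ s in (0 : ℝ)..1, ee (-(n : ℝ) * s) = if n = 0 then 1 else 0 := by
  by_cases hn : n = 0
  · subst hn
    simp [ee]
  · rw [if_neg hn]
    have hc : (-(2 * (Real.pi : ℂ) * Complex.I * (n : ℂ))) ≠ 0 := by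
      have h1 : (Real.pi : ℂ) ≠ 0 := by exact_mod_cast pi_ne_zero
      have h2 : (n : ℂ) ≠ 0 := by exact_mod_cast hn
      have h3 := Complex.I_ne_zero
      simp [h1, h2, h3]
    have e : ∀ s : ℝ, ee (-(n : ℝ) * s) =
        Complex.exp ((-(2 * (Real.pi : ℂ) * Complex.I * (n : ℂ))) * (s : ℂ)) := by
      intro s
      unfold ee
      congr 1
      push_cast
      ring
    simp only [e]
    rw [integral_exp_mul_complex hc]
    have h1 : Complex.exp (-(2 * (Real.pi : ℂ) * Complex.I * (n : ℂ)) * ((1 : ℝ) : ℂ)) = 1 := by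
      rw [Complex.exp_eq_one_iff]
      exact ⟨-n, by push_cast; ring⟩
    rw [h1]
    simp

lemma WW_int (M : ℕ) : ∫ s in (0 : ℝ)..1, ‖WW M s‖ ^ 2 = M := by
  have h : ((∫ s in (0 : ℝ)..1, ‖WW M s‖ ^ 2 : ℝ) : ℂ) = (M : ℂ) := by
    rw [← intervalIntegral.integral_ofReal]
    simp only [WW_sq]
    rw [integral_finsetSum]
    · have : ∀ j ∈ Finset.range M, (∫ s in (0 : ℝ)..1, ∑ k ∈ Finset.range M,
          ee (-(((k : ℤ) - (j : ℤ) : ℤ) : ℝ) * s)) = 1 := by
        intro j hj
        rw [integral_finsetSum]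
        · simp only [ee_integral]
          have : ∀ k ∈ Finset.range M, (if (k : ℤ) - (j : ℤ) = 0 then (1 : ℂ) else 0) =
              if k = j then 1 else 0 := by
            intro k _
            apply if_congr _ rfl rfl
            omega
          rw [Finset.sum_congr rfl this, Finset.sum_ite_eq' , if_pos hj]
        · intro k _
          exact (ee_lin_cont _).intervalIntegrable _ _
      rw [Finset.sum_congr rfl this]
      simp
    · intro j _
      apply Continuous.intervalIntegrable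
      apply continuous_finsetSum
      intro k _
      exact ee_lin_cont _
  exact_mod_cast h

lemma key_bound (m : ℕ) (hm : 1 ≤ m) (Bd : ℝ)
    (hB : ∀ s ∈ Set.Icc (0 : ℝ) 1, ‖TT (300 * m ^ 2) (588 * m ^ 2) s‖ ≤ Bd) :
    (m : ℝ) * √m ≤ Bd := by
  have hm' : (1 : ℝ) ≤ m := by exact_mod_cast hm
  set A := 300 * m ^ 2 with hA
  set B := 588 * m ^ 2 with hBdef
  have hAB : A ≤ B := by
    rw [hA, hBdef]
    exact Nat.mul_le_mul_right _ (by norm_num)
  -- the integral of the weighted sum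
  have e1 : ∫ s in (0 : ℝ)..1, ((‖WW m s‖ ^ 2 : ℝ) : ℂ) * (ee (-((12 * m : ℤ) : ℝ) * s) *
        TT A B s) = ∑ j ∈ Finset.range m, ∑ k ∈ Finset.range m,
          II A B (12 * m + ((k : ℤ) - (j : ℤ))) := by
    have hpt : ∀ s : ℝ, ((‖WW m s‖ ^ 2 : ℝ) : ℂ) * (ee (-((12 * m : ℤ) : ℝ) * s) * TT A B s) =
        ∑ j ∈ Finset.range m, ∑ k ∈ Finset.range m,
          ee (-((12 * m + ((k : ℤ) - (j : ℤ)) : ℤ) : ℝ) * s) * TT A B s := by
      intro s
      rw [WW_sq, Finset.sum_mul]
      apply Finset.sum_congr rfl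
      intro j _
      rw [Finset.sum_mul]
      apply Finset.sum_congr rfl
      intro k _
      rw [← mul_assoc, ← ee_add]
      congr 2
      push_cast
      ring
    simp only [hpt]
    rw [integral_finsetSum]
    · apply Finset.sum_congr rfl
      intro j _
      rw [integral_finsetSum]
      · apply Finset.sum_congr rfl
        intro k _
        exact fourier A B hAB _
      · intro k _
        exact ((ee_lin_cont _).mul (TT_cont A B)).intervalIntegrable _ _
    · intro j _
      apply Continuous.intervalIntegrable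
      apply continuous_finsetSum
      intro k _
      exact (ee_lin_cont _).mul (TT_cont A B)
  have e2 : ‖∫ s in (0 : ℝ)..1, ((‖WW m s‖ ^ 2 : ℝ) : ℂ) * (ee (-((12 * m : ℤ) : ℝ) * s) *
        TT A B s)‖ ≤ m * Bd := by
    calc _ ≤ ∫ s in (0 : ℝ)..1, ‖((‖WW m s‖ ^ 2 : ℝ) : ℂ) * (ee (-((12 * m : ℤ) : ℝ) * s) *
        TT A B s)‖ := norm_integral_le_integral_norm (by norm_num)
      _ ≤ ∫ s in (0 : ℝ)..1, ‖WW m s‖ ^ 2 * Bd := by
        apply integral_mono_on (by norm_num)
        · apply Continuous.intervalIntegrable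
          apply Continuous.norm
          apply Continuous.mul
          · exact Complex.continuous_ofReal.comp ((WW_cont m).norm.pow 2)
          · exact (ee_lin_cont _).mul (TT_cont A B)
        · apply Continuous.intervalIntegrable
          exact ((WW_cont m).norm.pow 2).mul continuous_const
        · intro s hs
          rw [norm_mul, norm_mul, norm_ee, one_mul, Complex.norm_real, Real.norm_eq_abs,
            abs_of_nonneg (by positivity)]
          exact mul_le_mul_of_nonneg_left (hB s hs) (by positivity)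
      _ = m * Bd := by
        rw [intervalIntegral.integral_mul_const, WW_int]
  have e3 : (m : ℝ) * m * √m ≤ (∑ j ∈ Finset.range m, ∑ k ∈ Finset.range m,
          II A B (12 * m + ((k : ℤ) - (j : ℤ)))).re := by
    rw [Complex.re_sum]
    have : ∀ j ∈ Finset.range m, (m : ℝ) * √m ≤
        (∑ k ∈ Finset.range m, II A B (12 * m + ((k : ℤ) - (j : ℤ)))).re := by
      intro j hj
      rw [Complex.re_sum]
      have h2 : ∀ k ∈ Finset.range m, √m ≤ (II A B (12 * m + ((k : ℤ) - (j : ℤ)))).re := by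
        intro k hk
        rw [Finset.mem_range] at hj hk
        have := II_re_ge m hm (12 * m + ((k : ℤ) - (j : ℤ))) (by omega) (by omega)
        rw [hA, hBdef]
        push_cast
        exact this
      calc (m : ℝ) * √m = ∑ k ∈ Finset.range m, √m := by simp
        _ ≤ _ := Finset.sum_le_sum h2
    calc (m : ℝ) * m * √m = ∑ j ∈ Finset.range m, (m : ℝ) * √m := by simp; ring
      _ ≤ _ := Finset.sum_le_sum this
  rw [e1] at e2
  have e4 := e3.trans ((Complex.re_le_norm _).trans e2)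
  have e5 : (m : ℝ) * ((m : ℝ) * √m) ≤ m * Bd := by linarith
  exact le_of_mul_le_mul_left e5 (by linarith)

end Pool.Agent.H739R3.ExpPair
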